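import Pool.Agent.W312.WT.Stm

/-!
# Correctness of the table (project WT of helper312, part STbl; helper347)
-/

set_option autoImplicit false

namespace Pool.Agent.W347.WT

open Pool.Agent.W312.WT

theorem mem_prs {l : List ℕ} {a : ℕ × ℕ} (h : a ∈ prs l) : a.1 ∈ l ∧ a.2 ∈ l := by
  unfold prs at h
  rw [List.mem_flatMap] at h
  obtain ⟨b, hb, h⟩ := h
  rw [List.mem_map] at h
  obtain ⟨c, hc, rfl⟩ := h
  exact ⟨hb, hc⟩

theorem mem_keys {n : ℕ} {cand th : List ℕ} {k : Key} (h : k ∈ keys n cand th) :
    k.2.2.1 ∈ cand := by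
  unfold keys at h
  rw [List.mem_flatMap] at h
  obtain ⟨b, hb, h⟩ := h
  rw [List.mem_flatMap] at h
  obtain ⟨c, hc, h⟩ := h
  rw [List.mem_map] at h
  obtain ⟨d, hd, rfl⟩ := h
  exact (mem_prs hd).1

theorem mem_joinE {p : ℕ} {x : Jb} {e f g : Ent} (h : g ∈ joinE p x e f) :
    g.2 = e.2 ++ (x, f.1.2.2.1) :: f.2 := by
  unfold joinE at h
  split_ifs at h with hc
  · rw [List.mem_singleton] at h
    rw [h]
  · simp at h

theorem proof_STbl : STbl := by
  intro hDec hSnd hCmp hBst hTab hIni p L P
  induction P using List.reverseRecOn with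
  | nil =>
    intro _ _
    obtain ⟨h1, h2⟩ := hIni p L.length (cands p L) (ths L)
    refine ⟨fun e he => ⟨(h1 e he).1, (h1 e he).2, ?_⟩, h2⟩
    have he' : e ∈ initE L.length (cands p L) (ths L) := he
    unfold initE at he'
    simp only [List.mem_flatMap, List.mem_map] at he'
    obtain ⟨h, -, s, -, a, -, rfl⟩ := he'
    intro q hq
    simp at hq
  | append_singleton P x ih =>
    intro hs hm
    rw [List.pairwise_append] at hs
    obtain ⟨hs1, -, hs2⟩ := hs
    have hx : ∀ y ∈ P, x.1 ≤ y.1 := fun y hy => hs2 y hy x (List.mem_singleton_self x)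
    obtain ⟨ih1, ih2⟩ := ih hs1 fun y hy => hm y (List.mem_append_left _ hy)
    have ht : table p L (P ++ [x]) =
        tabE (keys L.length (cands p L) (ths L)) (stepE p x (table p L P)) := by
      unfold table
      rw [List.foldl_append]
      rfl
    have hr : (P ++ [x]).reverse = x :: P.reverse := by simp
    rw [ht, hr]
    obtain ⟨hT1, hT2⟩ := hTab hBst
    refine ⟨fun e he => ?_, ?_⟩
    · obtain ⟨h1, h2⟩ := hT1 _ _ e he
      refine ⟨hSnd p x P.reverse _ (fun e he => (ih1 e he).1) e h1, h2, ?_⟩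
      intro q hq
      unfold stepE at h1
      rcases List.mem_append.1 h1 with h1 | h1
      · exact (ih1 e (List.mem_filter.1 h1).1).2.2 q hq
      · rw [List.mem_flatMap] at h1
        obtain ⟨e', he', h1⟩ := h1
        rw [List.mem_flatMap] at h1
        obtain ⟨f, hf, h1⟩ := h1
        rw [mem_joinE h1] at hq
        rcases List.mem_append.1 hq with hq | hq
        · exact (ih1 e' he').2.2 q hq
        · rcases List.mem_cons.1 hq with rfl | hq
          · exact mem_keys (ih1 f hf).2.1
          · exact (ih1 f hf).2.2 q hq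
    · refine hT2 p _ _ _ _ _ (hCmp hDec p _ _ _ x P.reverse _ ?_ ?_ ih2)
      · intro y hy
        exact hx y (List.mem_reverse.1 hy)
      · intro y hy
        unfold ths
        refine List.mem_cons_of_mem _ (List.mem_cons_of_mem _ (List.mem_map.2 ⟨y, ?_, rfl⟩))
        exact hm y (List.mem_append_left _ (List.mem_reverse.1 hy))

end Pool.Agent.W347.WT
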